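import Pool.Agent.H16.NV.Stm
import Pool.Graph.R_pool_sql_team_seeded_b3bd081e.H518R3.LP5

/-!
# Crew NJ: the non-symmetric `L^p` Mahler inequality for all joins of planar convex bodies and points

Target `MP_5f4cdd_gt`, second hand-in.  `K = conv (B_1 ∪ … ∪ B_r ∪ {v_1, …, v_s})` in `ℝⁿ`,
`3 r + s = n + 1`, each `B_i` compact convex and contained in the affine span of three points, `K` with
nonempty interior.

Idea: fix everything but one planar body `B`. In barycentric coordinates `(bc x 0, bc x 1, bc x 2, z)`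
`K = KB B D = {x | (bc x 0, bc x 1, bc x 2) ∈ cone over B, z ∈ D}`.  Moving a vertex of a polygon
`B` parallel to the chord of its neighbours (the piecewise linear shear `LP.shear`) is on `KB B D` a parallel
chord movement, so the planar reduction of polygons to triangles works verbatim.
-/

set_option autoImplicit false

open MeasureTheory Set
open scoped ENNReal NNReal

namespace Pool.Agent.H16.NJ

open Pool.Agent.H16.NV
open Pool.Agent.H518R3.LP (shear T Tri)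

/-- no position of `K` is better than the infimum over all positions of `L` -/
def Lo {n : ℕ} (p : ℝ) (L K : Set (Fin n → ℝ)) : Prop :=
  ∀ ξ : Fin n → ℝ, (⨅ ξ' : Fin n → ℝ, Fu p L ξ') ≤ Fu p K ξ

/-- the last `m` coordinates -/
def tl {m : ℕ} (x : Fin (m + 2) → ℝ) : Fin m → ℝ := fun i => x i.succ.succ

/-- the join-like body over the planar set `B`; `1 - ∑ tl x = bc x 0 + bc x 1 + bc x 2` -/
def KB {m : ℕ} (B : Set (ℝ × ℝ)) (D : Set (Fin m → ℝ)) : Set (Fin (m + 2) → ℝ) :=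
  {x | tl x ∈ D ∧ 0 ≤ 1 - ∑ i, tl x i ∧
    ∃ q ∈ B, x 1 = (1 - ∑ i, tl x i) * q.1 ∧ x 0 = (1 - ∑ i, tl x i) * q.2}

/-- admissible `D` -/
def OKD {m : ℕ} (D : Set (Fin m → ℝ)) : Prop :=
  IsCompact D ∧ (∀ z ∈ D, ∑ i, z i ≤ 1) ∧ ∃ z ∈ interior D, ∑ i, z i < 1

/-- SHE: the planar shear of `B` is a chord movement of `KB B D`, with speed `max (x 1) 0`
(`Fin.tail x 0 = x 1`; homogeneity: `μ max q.1 0 = max (μ q.1) 0`, `μ = 1 - ∑ tl x ≥ 0`, and `tl` does not change). -/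
def S_SHE : Prop := ∀ (m : ℕ) (B : Set (ℝ × ℝ)) (D : Set (Fin m → ℝ)) (t : ℝ),
  KB (shear t '' B) D = cm (fun w : Fin (m + 1) → ℝ => max (w 0) 0) t '' KB B D

/-- PLA: planar affine maps lift: `x 1 ↦ α x 1 + β x 0 + (1 - ∑ tl x) b.1`,
`x 0 ↦ γ x 1 + δ x 0 + (1 - ∑ tl x) b.2`, `tl x ↦ tl x`. -/
def S_PLA : Prop := ∀ (m : ℕ) (D : Set (Fin m → ℝ)) (α β γ δ : ℝ) (b : ℝ × ℝ),
  α * δ - β * γ ≠ 0 → ∃ A : (Fin (m + 2) → ℝ) ≃ᵃ[ℝ] (Fin (m + 2) → ℝ),
    ∀ B : Set (ℝ × ℝ), KB (T α β γ δ b '' B) D = A '' KB B D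

/-- CPT: compactness (image of the compact set `B × D` under
`(q, z) ↦ (μ q.2, μ q.1, z)`, `μ = 1 - ∑ z ≥ 0`) and positive volume (if `q ∈ interior B`,
`z ∈ interior D`, `∑ z < 1` then the point over `(q, z)` is an interior point; a convex set of positive
volume has interior points). -/
def S_CPT : Prop := ∀ (m : ℕ) (B : Set (ℝ × ℝ)) (D : Set (Fin m → ℝ)), OKD D → IsCompact B →
  IsCompact (KB B D) ∧ (Convex ℝ B → volume B ≠ 0 →
    volume (KB B D) ≠ 0 ∧ (interior (KB B D)).Nonempty)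

/-- POL: abstract form of `good_poly` (`H518R3/LP7.lean`, `LP8.lean` of the library): copy these two files
with `Good p` replaced by `Q` (only `Good.image`, `good_tri` and the conclusion of `shear_key` are used). -/
def S_POL : Prop := ∀ Q : Set (ℝ × ℝ) → Prop,
  (∀ (α β γ δ : ℝ) (b : ℝ × ℝ) (K : Set (ℝ × ℝ)), α * δ - β * γ ≠ 0 → IsCompact K → Q K →
    Q (T α β γ δ b '' K)) →
  Q Tri →
  (∀ K : Set (ℝ × ℝ), IsCompact K → Convex ℝ K → volume K ≠ 0 → ∀ t0 t1 : ℝ, t0 ≤ 0 → 0 ≤ t1 →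
    Q (shear t0 '' K) → Q (shear t1 '' K) → Q K) →
  ∀ S : Finset (ℝ × ℝ), volume (convexHull ℝ (S : Set (ℝ × ℝ))) ≠ 0 →
    Q (convexHull ℝ (S : Set (ℝ × ℝ)))

/-- REL: polygons. Apply POL to `Q B := Lo p (KB Tri D) (KB B D)`, with SHE, PLA, CPT and the parts
`NV.S_KEY`, `NV.S_VOL`, `NV.S_AFF`; `cm b 0 '' K = K`. -/
def S_REL : Prop := ∀ (m : ℕ) (p : ℝ), 0 < p → ∀ D : Set (Fin m → ℝ), OKD D →
  ∀ S : Finset (ℝ × ℝ), volume (convexHull ℝ (S : Set (ℝ × ℝ))) ≠ 0 →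
    Lo p (KB Tri D) (KB (convexHull ℝ (S : Set (ℝ × ℝ))) D)

/-- APX (from REL, CPT, AFF): all planar convex bodies. As in `good_body` (`H518R3/LP9.lean`), with the
homothety `H x = (1-ε) x + ε x0` of the whole space, `x0 ∈ interior K`, `K = KB B D`, `ε = 1/(k+2)`, `D` convex:
`H '' K ⊆ interior K`; on `interior K` one has `μ = 1 - ∑ tl x > 0` and `(x 1 / μ, x 0 / μ) ∈ interior B`
(an open condition), so `L = {(x 1 / μ, x 0 / μ) | x ∈ H '' K}` is a compact subset of `interior B`;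
`LP.exists_finset` (LP9) gives a finite `S ⊆ B` with `L ⊆ hull S`, so `H '' K ⊆ P := KB (hull S) D ⊆ K`
(`hull S` has positive area since `L` contains the open set of all `q` whose point over `(q, z0)` is in
`interior (H '' K)`; or add three points of `B` to `S`). Then
`Λ ≤ Fu p P (H ξ) ≤ (vol K)^(1+1/p) In p (H '' K) (H ξ)` and `vol (H '' K) = (1-ε)^n vol K`,
`Fu p (H '' K) (H ξ) = Fu p K ξ`. Let `k → ∞`. -/
def S_APX : Prop := ∀ (m : ℕ) (p : ℝ), 0 < p → ∀ D : Set (Fin m → ℝ), OKD D → Convex ℝ D →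
  ∀ B : Set (ℝ × ℝ), IsCompact B → Convex ℝ B → volume B ≠ 0 → Lo p (KB Tri D) (KB B D)

/-- SPL: coordinates. `e` affinely independent, `B ⊆ aff {e 0, e 1, e 2}`, `C ⊆ aff {e 3, …}`. `A` maps `x` to
`∑ a, bc x a • e a`; `B' = {(X, Y) | (1-X-Y) e 0 + Y e 1 + X e 2 ∈ B}`,
`D = {0} ∪ {λ z | 0 ≤ λ ≤ 1, ∑ z = 1, ∑ z_j e_(3+j) ∈ C}` (convex, compact). Every point of the hull is
`(1-λ) b + λ c`. `interior D`: the projection `tl` is open, so `tl` of an interior point of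
`A⁻¹ K = KB B' D` is an interior point of `D`, with `∑ < 1`. -/
def S_SPL : Prop := ∀ (m : ℕ) (e : Fin (m + 3) → (Fin (m + 2) → ℝ)), AffineIndependent ℝ e →
  ∀ B C : Set (Fin (m + 2) → ℝ), IsCompact B → Convex ℝ B → IsCompact C → Convex ℝ C →
  B ⊆ affineSpan ℝ {e 0, e 1, e 2} → C ⊆ affineSpan ℝ (range fun i : Fin m => e i.succ.succ.succ) →
  (interior (convexHull ℝ (B ∪ C))).Nonempty →
  ∃ (A : (Fin (m + 2) → ℝ) ≃ᵃ[ℝ] (Fin (m + 2) → ℝ)) (B' : Set (ℝ × ℝ)) (D : Set (Fin m → ℝ)),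
    OKD D ∧ Convex ℝ D ∧ IsCompact B' ∧ Convex ℝ B' ∧ volume B' ≠ 0 ∧
    convexHull ℝ (B ∪ C) = A '' KB B' D ∧
    convexHull ℝ ({e 0, e 1, e 2} ∪ C) = A '' KB Tri D

/-- STE (from SPL, APX, CPT, AFF): replace one planar body by a triangle. -/
def S_STE : Prop := ∀ (m : ℕ) (p : ℝ), 0 < p → ∀ e : Fin (m + 3) → (Fin (m + 2) → ℝ),
  AffineIndependent ℝ e → ∀ B C : Set (Fin (m + 2) → ℝ), IsCompact B → Convex ℝ B →
  IsCompact C → Convex ℝ C →
  B ⊆ affineSpan ℝ {e 0, e 1, e 2} → C ⊆ affineSpan ℝ (range fun i : Fin m => e i.succ.succ.succ) →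
  (interior (convexHull ℝ (B ∪ C))).Nonempty →
  Lo p (convexHull ℝ ({e 0, e 1, e 2} ∪ C)) (convexHull ℝ (B ∪ C)) ∧
    (interior (convexHull ℝ ({e 0, e 1, e 2} ∪ C))).Nonempty

/-- SPX (from `NV.S_HUL`, `NV.S_IND`, `NV.S_AFF`): hulls of `n + 1` points. (Repeat a point to get `n + 2`.) -/
def S_SPX : Prop := ∀ (n : ℕ) (p : ℝ), 0 < p → ∀ v : Fin (n + 1) → (Fin n → ℝ),
  (interior (convexHull ℝ (range v))).Nonempty → Lo p (Simp n) (convexHull ℝ (range v))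

/-- BAS: `n + 1` points of `ℝⁿ` whose affine span contains a set with nonempty interior are affinely
independent. -/
def S_BAS : Prop := ∀ (n : ℕ) (e : Fin (n + 1) → (Fin n → ℝ)) (K : Set (Fin n → ℝ)),
  (interior K).Nonempty → K ⊆ affineSpan ℝ (range e) → AffineIndependent ℝ e

/-- JOI (from STE, SPX, BAS): induction on `r`. For `r + 1` let `C = hull (⋃_{g ≥ 1} B g ∪ range v)`; the
`3 + 3 r + s = n + 1` points `a 0, …, a r, v` are affinely independent by BAS; reindex them such that `a 0` comes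
first (`n = m + 2`); STE replaces `B 0` by the three points `a 0 i`, which are added to `v` (`s + 3` points);
`hull (X ∪ hull Y) = hull (X ∪ Y)`; `Lo` is transitive. -/
def S_JOI : Prop := ∀ (r n s : ℕ) (p : ℝ), 0 < p → 3 * r + s = n + 1 →
  ∀ (B : Fin r → Set (Fin n → ℝ)) (a : Fin r → Fin 3 → (Fin n → ℝ)) (v : Fin s → (Fin n → ℝ)),
  (∀ g, IsCompact (B g) ∧ Convex ℝ (B g) ∧ B g ⊆ affineSpan ℝ (range (a g))) →
  (interior (convexHull ℝ ((⋃ g, B g) ∪ range v))).Nonempty →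
  Lo p (Simp n) (convexHull ℝ ((⋃ g, B g) ∪ range v))

/-- FI2 (from `NV.S_AFF`, `NV.S_OUT`, `NV.S_MPE`, `NV.S_CMP`; copy `Pool/Agent/H80/NV/FIN.lean`). -/
def S_FI2 : Prop := ∀ (n : ℕ) (p : ℝ), 0 < p → ∀ K : Set (Fin n → ℝ), IsCompact K →
  volume K ≠ 0 → Lo p (Simp n) K →
  (⨅ x ∈ Simp n, Mp p ((fun z => z - x) '' Simp n)) ≤ Mp p K

/-- CHK: the hull is compact. -/
def S_CHK : Prop := ∀ (n r s : ℕ) (B : Fin r → Set (Fin n → ℝ)) (v : Fin s → (Fin n → ℝ)),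
  (∀ g, IsCompact (B g)) → IsCompact (convexHull ℝ ((⋃ g, B g) ∪ range v))

end Pool.Agent.H16.NJ
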